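import Pool.Agent.J6H25.MOD.Law
import Pool.Agent.N132.IX.Schur

/-!
# Lower bounds for nonzero modules
-/

set_option autoImplicit false

open CategoryTheory AlgebraicGeometry
open scoped ENNReal

universe u v w t

namespace Pool.Agent.J6H25.MOD

open Module Filter Topology
open Pool.Agent.H914 Pool.Agent.H914.VarClass Pool.Agent.H914.VarClass.Obj
  Pool.Agent.H914.WeilCohomology Pool.Agent.W492.BB Pool.Agent.W550.Corr
open Pool.Agent.Y133.Half hiding comp_lift lift_eta rho
open Pool.Agent.N765.IX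
open Pool.Agent.N132.IX hiding Stab Lim Inf RLim cyc ncyc stab_cyc stab_ncyc ncyc_le

variable {k : Type u} [Field k] {𝒱 : VarClass k} {ops : CycleOps 𝒱}
  {W : WeilCohomology.{u, v} ops} {X Y Z P Q V : 𝒱.Obj} {C : CycleTheory.{u, v, w} W}
  (M : CorrModule.{u, v, w, t} C)

lemma comp_cw (f : Q ⟶ P) (v : C.A Q) (c : C.A (V.prod P)) : C.comp c (cw C f v) =
    C.pull (snd V Q) v * C.pull (prodMap (𝟙 V) f) c := by
  rw [comp_eq_extR, extR_cw]

lemma comp_graph' (f : P ⟶ Q) (c : C.A (V.prod P)) : C.comp c (C.graph f) =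
    C.push (prodMap (𝟙 V) f) c := by
  rw [comp_eq_extR, extR_graph]

/-- the correspondence acting by `b ↦ fst_* (snd^* v · b)` -/
noncomputable def outC (C : CycleTheory.{u, v, w} W) (P Z : 𝒱.Obj) (v : C.A Z) :
    C.A ((P.prod Z).prod P) :=
  C.comp (cw C (𝟙 (P.prod Z)) (C.pull (snd P Z) v)) (C.graph (fst P Z))

lemma io_out (x v : C.A Z) : C.comp (io C P x) (outC C P Z v) =
    W.tr _ (C.cl _ (v * x)) • dg C.toTheoryData P := by
  have h1 : io C P x = C.pull (snd P (P.prod Z)) (C.pull (snd P Z) x) *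
      C.pull (prodMap (𝟙 P) (fst P Z)) (dg C.toTheoryData P) := by
    rw [← comp_cw, dg_comp]
    rfl
  have h2 : prodMap (𝟙 P) (𝟙 (P.prod Z)) = 𝟙 (P.prod (P.prod Z)) := by
    apply prod_ext <;> simp [prodMap]
  have e1 : aJ P P Z ≫ fst (P.prod P) Z = prodMap (𝟙 P) (fst P Z) := by
    apply prod_ext <;> simp [aJ, comp_lift]
  have e2 : aJ P P Z ≫ snd (P.prod P) Z = snd P (P.prod Z) ≫ snd P Z := by
    simp [aJ, comp_lift]
  rw [outC, ← comp_assoc, comp_cw, comp_graph', h2, TheoryData.pull_id, h1, ← mul_assoc,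
    ← map_mul, ← map_mul, TheoryData.proj_right, ← TheoryData.pull_comp, ← e1, ← e2,
    TheoryData.pull_comp C.toTheoryData (aJ P P Z) (snd (P.prod P) Z),
    TheoryData.push_comp C.toTheoryData,
    push_pull_iso C.toTheoryData (aJ P P Z) (aI P P Z) aJ_aI aI_aJ,
    push_fst_degree, smul_mul_assoc, one_mul]

/-- The dimension of `M(Y)`, a natural number or infinity. -/
noncomputable def dimM (Y : 𝒱.Obj) : ℕ∞ := Cardinal.toENat (Module.rank W.K (M.M Y))

/-- `io` is linear -/
noncomputable def ioL (C : CycleTheory.{u, v, w} W) (P Z : 𝒱.Obj) :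
    C.A Z →ₗ[W.K] C.A (P.prod (P.prod Z)) :=
  (C.push (Obj.lift (fst P Z) (𝟙 _))) ∘ₗ (C.pull (snd P Z)).toLinearMap

lemma ioL_apply (x : C.A Z) : ioL C P Z x = io C P x := rfl

/-- external products with an element of the module -/
noncomputable def ampM (y : M.M P) (Z : 𝒱.Obj) : C.A Z →ₗ[W.K] M.M (P.prod Z) :=
  ((M.act P (P.prod Z)).flip y) ∘ₗ ioL C P Z

lemma ampM_ker {y : M.M P} (hy : y ≠ 0) (Z : 𝒱.Obj) :
    LinearMap.ker (ampM M y Z) ≤ C.num Z := by
  intro w hw v
  have h1 : M.act _ _ (io C P w) y = 0 := hw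
  have h2 : M.act _ _ (C.comp (io C P w) (outC C P Z v)) y = 0 := by
    rw [M.act_comp, h1, map_zero]
  rw [io_out, map_smul, LinearMap.smul_apply, M.act_dg] at h2
  have h3 := (smul_eq_zero.1 h2).resolve_right hy
  rwa [C.mul_comm] at h3

lemma dimM_eq [Module.Finite W.K (M.M Z)] : dimM M Z = (finrank W.K (M.M Z) : ℕ∞) := by
  rw [dimM, ← finrank_eq_rank, Cardinal.toENat_nat]

lemma dimM_top (h : ¬ Module.Finite W.K (M.M Z)) : dimM M Z = ⊤ := by
  rw [dimM, Cardinal.toENat_eq_top]
  by_contra h2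
  exact h (Module.rank_lt_aleph0_iff.1 (not_le.1 h2))

/-- **Amplification.** -/
theorem amp_le {y : M.M P} (hy : y ≠ 0) (Z : 𝒱.Obj) :
    (C.numRank Z : ℕ∞) ≤ dimM M (P.prod Z) := by
  by_cases hM : Module.Finite W.K (M.M (P.prod Z))
  · rw [dimM_eq]
    have hfin' : Module.Finite W.K (C.A Z ⧸ LinearMap.ker (ampM M y Z)) :=
      Module.Finite.equiv (ampM M y Z).quotKerEquivRange.symm
    have h2 : finrank W.K (C.A Z ⧸ C.num Z) ≤
        finrank W.K (C.A Z ⧸ LinearMap.ker (ampM M y Z)) :=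
      LinearMap.finrank_le_finrank_of_surjective (f := Submodule.factor (ampM_ker M hy Z))
        (Submodule.factor_surjective _)
    rw [(ampM M y Z).quotKerEquivRange.finrank_eq] at h2
    have h3 := h2.trans (Submodule.finrank_le _)
    exact_mod_cast h3
  · rw [dimM_top M hM]
    exact le_top

lemma act_graph_inv (θ : Y ≅ Z) (y : M.M Y) :
    M.act _ _ (C.graph θ.inv) (M.act _ _ (C.graph θ.hom) y) = y := by
  rw [← M.act_comp, Pool.Agent.N132.IX.comp_graph, θ.hom_inv_id]
  exact M.act_dg y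

/-- invariance under isomorphisms -/
noncomputable def isoM (θ : Y ≅ Z) : M.M Y ≃ₗ[W.K] M.M Z :=
  LinearEquiv.ofLinearMap (M.act _ _ (C.graph θ.hom)) (M.act _ _ (C.graph θ.inv))
    (by
      ext x
      exact act_graph_inv M θ.symm x)
    (by
      ext x
      exact act_graph_inv M θ x)

lemma dimM_iso (θ : Y ≅ Z) : dimM M Y = dimM M Z := by
  rw [dimM, dimM, (isoM M θ).rank_eq]

/-- **Nonzero modules are not small.** -/
theorem not_small {m : ℕ} {y : M.M (pw X m)} (hy : y ≠ 0) : ∃ c : ℕ,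
    ∀ᶠ n in atTop, (C.numRank (pw X n) : ℕ∞) ≤ c * dimM M (pw X n) := by
  obtain ⟨B, hB⟩ := AJ.numRank_add_le C X m
  refine ⟨B, eventually_atTop.2 ⟨m + 2, fun n hn => ?_⟩⟩
  obtain ⟨q, hq, rfl⟩ : ∃ q ≥ 1, n = m + q + 1 := ⟨n - m - 1, by omega, by omega⟩
  have h1 : (C.numRank (pw X (m + q + 1)) : ℕ∞) ≤ (B : ℕ∞) * (C.numRank (pw X q) : ℕ∞) := by
    exact_mod_cast hB q hq
  have h2 : (C.numRank (pw X q) : ℕ∞) ≤ dimM M (pw X (m + q + 1)) := by
    rw [← dimM_iso M (pwAdd X m q)]
    exact amp_le M hy _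
  exact h1.trans (mul_le_mul_right h2 _)

/-- varieties dominated by powers of `X` -/
lemma zero_of_dominated (h : ∀ (n : ℕ) (y : M.M (pw X n)), y = 0) (hY : AJ.Dominates C X Y)
    (y : M.M Y) : y = 0 := by
  obtain ⟨n, f, a, ha⟩ := hY
  have h1 : C.comp (cw C f a) (C.graph f) = dg C.toTheoryData Y := by
    have h2 : cw C f a = C.pull (snd Y (pw X n)) a *
        C.pull (prodMap (𝟙 Y) f) (dg C.toTheoryData Y) := by
      rw [← comp_cw, dg_comp]
    rw [comp_graph', h2, TheoryData.proj_right, ← TheoryData.base_snd, ha, map_one, one_mul]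
  rw [← M.act_dg y, ← h1, M.act_comp, h n (M.act _ _ (cw C f a) y), map_zero]

lemma dominates_pw (n : ℕ) : AJ.Dominates C X (pw X n) := ⟨n, 𝟙 _, 1, by
  rw [TheoryData.push_id]⟩

lemma all_iff : (∀ (n : ℕ) (y : M.M (pw X n)), y = 0) ↔
    ∀ Y, AJ.Dominates C X Y → ∀ y : M.M Y, y = 0 :=
  ⟨fun h _ hY y => zero_of_dominated M h hY y, fun h n => h _ (dominates_pw n)⟩

theorem small_modules (X : 𝒱.Obj) :
    (∀ Y, AJ.Dominates C X Y → ∀ y : M.M Y, y = 0) ∨
      ∃ c : ℕ, ∀ᶠ n in atTop, (C.numRank (pw X n) : ℕ∞) ≤ c * dimM M (pw X n) := by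
  by_cases h : ∀ (n : ℕ) (y : M.M (pw X n)), y = 0
  · exact Or.inl ((all_iff M).1 h)
  · push Not at h
    obtain ⟨m, y, hy⟩ := h
    exact Or.inr (not_small M hy)

/-- the powers of a correspondence -/
noncomputable def cpow (Γ : C.A (P.prod P)) : ℕ → C.A (P.prod P)
  | 0 => Γ
  | r + 1 => C.comp (cpow Γ r) Γ

/-- Homologically trivial correspondences on the powers of `X` are nilpotent. -/
def NilCorr (C : CycleTheory.{u, v, w} W) (X : 𝒱.Obj) : Prop :=
  ∀ (m : ℕ) (Γ : C.A ((pw X m).prod (pw X m))), C.cl _ Γ = 0 → ∃ r, cpow Γ r = 0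

lemma noFix_of (h : NilCorr C X) (G : ∀ n, Submodule W.K (M.M (pw X n))) : NoFixG G := by
  intro m Γ y _ hΓ hy
  obtain ⟨r, hr⟩ := h m Γ hΓ
  have h1 : ∀ r, M.act _ _ (cpow Γ r) y = y := by
    intro r
    induction r with
    | zero => exact hy
    | succ r ih =>
      change M.act _ _ (C.comp (cpow Γ r) Γ) y = y
      rw [M.act_comp, ih, hy]
  rw [← h1 r, hr, map_zero, LinearMap.zero_apply]

lemma stab_top : Stab M X (fun _ => ⊤) := fun _ _ _ _ _ => Submodule.mem_top

/-- external product with the class of a point is injective -/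
lemma finite_pred {n : ℕ} (h : Module.Finite W.K (M.M (pw X (n + 1)))) :
    Module.Finite W.K (M.M (pw X n)) := by
  have h3 : Module.Finite W.K (M.M ((pw X n).prod X)) := h
  obtain ⟨z, hz⟩ := C.exists_point X
  have h1 : ∀ y : M.M (pw X n), M.act _ _ (outC C (pw X n) X z) (M.act _ _ (io C (pw X n) 1) y) =
      y := by
    intro y
    rw [← M.act_comp, io_out, mul_one, hz, one_smul, M.act_dg]
  refine Module.Finite.of_injective (M.act _ _ (io C (pw X n) (1 : C.A X))) ?_
  intro a b hab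
  rw [← h1 a, ← h1 b, hab]

/-- **The index law for modules.** -/
theorem index_module (X : 𝒱.Obj)
    (hD : ∀ (n : ℕ) (x : C.A (pw X n)), CycleTheory.NumTriv x → C.cl _ x = 0)
    (hnil : NilCorr C X) :
    ∃ i : ℕ∞, Tendsto (fun n => (dimM M (pw X n) : ℝ≥0∞) / (C.numRank (pw X n) : ℝ≥0∞)) atTop
      (𝓝 (i : ℝ≥0∞)) ∧ (i = 0 ↔ ∀ Y, AJ.Dominates C X Y → ∀ y : M.M Y, y = 0) := by
  have hB := AJ.base_of hD
  have hr0 : ∀ n, (C.numRank (pw X n) : ℝ≥0∞) ≠ 0 := fun n => by
    rw [numRank_eq]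
    exact_mod_cast (a_pos C _).ne'
  have hr1 : ∀ n, (C.numRank (pw X n) : ℝ≥0∞) ≠ ⊤ := fun n => ENNReal.natCast_ne_top _
  by_cases hfin : ∀ n, Module.Finite W.K (M.M (pw X n))
  · have hft : ∀ n, Module.Finite W.K ((fun _ => ⊤ : ∀ n, Submodule W.K (M.M (pw X n))) n) :=
      fun n => by
        have := hfin n
        exact Module.Finite.of_surjective (Submodule.topEquiv.symm.toLinearMap)
          Submodule.topEquiv.symm.surjective
    have hrat : ∀ n, (dimM M (pw X n) : ℝ≥0∞) / (C.numRank (pw X n) : ℝ≥0∞) =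
        ENNReal.ofReal ((finrank W.K (⊤ : Submodule W.K (M.M (pw X n))) : ℝ) /
          C.S.a (pw X n)) := by
      intro n
      have := hfin n
      have hp : (0 : ℝ) < C.S.a (pw X n) := by exact_mod_cast hB.pos n
      rw [dimM_eq, numRank_eq, ENat.toENNReal_coe, ENNReal.ofReal_div_of_pos hp,
        ENNReal.ofReal_natCast, ENNReal.ofReal_natCast, finrank_top]
    rcases lawG hB (stab_top M) hft (noFix_of M hnil _) with ⟨i, hi, hi0⟩ | h
    · refine ⟨i, ?_, ?_⟩
      · have h2 : Tendsto (fun n => ENNReal.ofReal ((finrank W.K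
            (⊤ : Submodule W.K (M.M (pw X n))) : ℝ) / C.S.a (pw X n))) atTop
              (𝓝 (ENNReal.ofReal i)) :=
          (ENNReal.continuous_ofReal.tendsto _).comp hi
        rw [ENNReal.ofReal_natCast] at h2
        rw [ENat.toENNReal_coe]
        exact h2.congr fun n => (hrat n).symm
      · rw [← all_iff M]
        constructor
        · intro h n y
          have h2 := hi0 (by exact_mod_cast h) n
          have h3 : y ∈ (⊤ : Submodule W.K (M.M (pw X n))) := Submodule.mem_top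
          rw [h2, Submodule.mem_bot] at h3
          exact h3
        · intro h
          have h3 : Tendsto (fun n => (finrank W.K (⊤ : Submodule W.K (M.M (pw X n))) : ℝ) /
              C.S.a (pw X n)) atTop (𝓝 (0 : ℝ)) := by
            refine tendsto_const_nhds.congr fun n => ?_
            have h5 : (⊤ : Submodule W.K (M.M (pw X n))) = ⊥ := by
              rw [eq_bot_iff]
              exact fun y _ => (Submodule.mem_bot _).2 (h n y)
            rw [h5, finrank_bot, Nat.cast_zero, zero_div]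
          have h4 : (i : ℝ) = 0 := tendsto_nhds_unique hi h3
          have h5 : i = 0 := by exact_mod_cast h4
          rw [h5]
          rfl
    · refine ⟨⊤, ?_, ?_⟩
      · rw [ENat.toENNReal_top]
        apply ENNReal.tendsto_nhds_top
        intro N
        filter_upwards [h (N + 1)] with n hn
        have h2 : ((N + 1 : ℕ) : ℝ≥0∞) ≤
            (dimM M (pw X n) : ℝ≥0∞) / (C.numRank (pw X n) : ℝ≥0∞) := by
          rw [ENNReal.le_div_iff_mul_le (Or.inl (hr0 n)) (Or.inl (hr1 n))]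
          have := hfin n
          rw [dimM_eq, ENat.toENNReal_coe, numRank_eq]
          rw [finrank_top] at hn
          exact_mod_cast hn
        refine lt_of_lt_of_le ?_ h2
        exact_mod_cast Nat.lt_succ_self N
      · refine ⟨fun h0 => absurd h0 (by simp), fun h0 => ?_⟩
        exfalso
        have h2 := (all_iff (X := X) M).2 h0
        obtain ⟨n, hn⟩ := (h 1).exists
        have h5 : (⊤ : Submodule W.K (M.M (pw X n))) = ⊥ := by
          rw [eq_bot_iff]
          exact fun y _ => (Submodule.mem_bot _).2 (h2 n y)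
        have h6 := hB.pos n
        have h7 : 1 * C.S.a (pw X n) ≤ finrank W.K (⊤ : Submodule W.K (M.M (pw X n))) := hn
        rw [h5, finrank_bot] at h7
        omega
  · push Not at hfin
    obtain ⟨n₁, hn₁⟩ := hfin
    have hinf : ∀ n ≥ n₁, ¬ Module.Finite W.K (M.M (pw X n)) := by
      intro n hn
      induction n, hn using Nat.le_induction with
      | base => exact hn₁
      | succ n _ ih => exact fun h => ih (finite_pred M h)
    refine ⟨⊤, ?_, ?_⟩
    · rw [ENat.toENNReal_top]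
      refine tendsto_const_nhds.congr' ?_
      filter_upwards [eventually_ge_atTop n₁] with n hn
      rw [dimM_top M (hinf n hn), ENat.toENNReal_top, ENNReal.top_div_of_ne_top (hr1 n)]
    · refine ⟨fun h0 => absurd h0 (by simp), fun h0 => ?_⟩
      exfalso
      have h2 := (all_iff (X := X) M).2 h0
      apply hn₁
      have : Subsingleton (M.M (pw X n₁)) := ⟨fun a b => (h2 n₁ a).trans (h2 n₁ b).symm⟩
      infer_instance

end Pool.Agent.J6H25.MOD
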