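import Pool.Agent.J6H25.AJ.Final

/-!
# Modules over the correspondences of a theory of cycles
-/

set_option autoImplicit false

open CategoryTheory AlgebraicGeometry
open scoped ENNReal

universe u v w t

namespace Pool.Agent.J6H25.MOD

open Module Filter Topology
open Pool.Agent.H914 Pool.Agent.H914.VarClass Pool.Agent.H914.VarClass.Obj
  Pool.Agent.H914.WeilCohomology Pool.Agent.W492.BB Pool.Agent.W550.Corr Pool.Agent.Y133.Half
  Pool.Agent.J6H25.AJ
open Pool.Agent.N132.IX hiding Stab Lim Inf RLim cyc ncyc stab_cyc stab_ncyc ncyc_le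

variable {k : Type u} [Field k] {𝒱 : VarClass k} {ops : CycleOps 𝒱}
  {W : WeilCohomology.{u, v} ops}

/-- A module over the correspondences: vector spaces `M(Y)` on which correspondences act. -/
structure CorrModule (C : CycleTheory.{u, v, w} W) where
  M : 𝒱.Obj → Type t
  [grp : ∀ Y, AddCommGroup (M Y)]
  [mod : ∀ Y, Module W.K (M Y)]
  act : ∀ Y Z : 𝒱.Obj, C.A (Y.prod Z) →ₗ[W.K] M Y →ₗ[W.K] M Z
  act_comp : ∀ {P Q R : 𝒱.Obj} (Γ : C.A (P.prod Q)) (Δ : C.A (Q.prod R)) (y : M P),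
    act P R (C.comp Γ Δ) y = act Q R Δ (act P Q Γ y)
  act_dg : ∀ {Y : 𝒱.Obj} (y : M Y), act Y Y (dg C.toTheoryData Y) y = y

attribute [instance] CorrModule.grp CorrModule.mod

variable {C : CycleTheory.{u, v, w} W} {X Y Z P Q : 𝒱.Obj} (M : CorrModule.{u, v, w, t} C)

/-- A family of subspaces stable under all correspondences between powers of `X`. -/
def Stab (X : 𝒱.Obj) (G : ∀ n, Submodule W.K (M.M (pw X n))) :
    Prop := ∀ (m n : ℕ) (Γ : C.A ((pw X m).prod (pw X n))) (y : M.M (pw X m)), y ∈ G m →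
      M.act _ _ Γ y ∈ G n

/-- The dimensions of the spaces `G n` are asymptotic to `N` times the numerical ranks. -/
def Lim (X : 𝒱.Obj) (G : ∀ n, Submodule W.K (M.M (pw X n))) (N : ℕ) : Prop :=
  Tendsto (fun n => (finrank W.K (G n) : ℝ) / C.S.a (pw X n)) atTop (𝓝 N)

/-- The dimensions of the spaces `G n` grow faster than the numerical ranks. -/
def Inf (X : 𝒱.Obj) (G : ∀ n, Submodule W.K (M.M (pw X n))) : Prop :=
  ∀ N : ℕ, ∀ᶠ n in atTop, N * C.S.a (pw X n) ≤ finrank W.K (G n)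

/-- The dimensions of the quotients `G n / G' n` are asymptotic to `N` times the numerical ranks. -/
def RLim (X : 𝒱.Obj) (G' G : ∀ n, Submodule W.K (M.M (pw X n))) (N : ℕ) : Prop :=
  Tendsto (fun n => ((finrank W.K (G n) : ℝ) - finrank W.K (G' n)) / C.S.a (pw X n)) atTop (𝓝 N)

/-- The classes obtained from `y` by correspondences. -/
noncomputable def cyc {X : 𝒱.Obj} {m : ℕ} (y : M.M (pw X m))
    (n : ℕ) : Submodule W.K (M.M (pw X n)) :=
  LinearMap.range ((M.act (pw X m) (pw X n)).flip y)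

/-- The classes obtained from `y` by homologically trivial correspondences. -/
noncomputable def ncyc {X : 𝒱.Obj} {m : ℕ} (y : M.M (pw X m))
    (n : ℕ) : Submodule W.K (M.M (pw X n)) :=
  (LinearMap.ker (C.cl ((pw X m).prod (pw X n))).toLinearMap).map
    ((M.act (pw X m) (pw X n)).flip y)

variable {M}

lemma stab_cyc {m : ℕ} (y : M.M (pw X m)) : Stab M X (cyc M y) := by
  rintro l n Δ _ ⟨Γ, rfl⟩
  exact ⟨C.comp Γ Δ, M.act_comp _ _ _⟩

lemma stab_ncyc {m : ℕ} (y : M.M (pw X m)) : Stab M X (ncyc M y) := by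
  rintro l n Δ _ ⟨Γ, hΓ, rfl⟩
  exact ⟨C.comp Γ Δ, cl_comp_zero hΓ Δ, M.act_comp _ _ _⟩

lemma ncyc_le {m : ℕ} (y : M.M (pw X m)) (n : ℕ) : ncyc M y n ≤ cyc M y n := by
  rintro _ ⟨Γ, hΓ, rfl⟩
  exact ⟨Γ, rfl⟩

end Pool.Agent.J6H25.MOD
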