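import Pool.Agent.J6H25.MOD.Phantom

/-!
# The index law for modules over the correspondences
-/

set_option autoImplicit false

open CategoryTheory AlgebraicGeometry
open scoped ENNReal

universe u v w t

namespace Pool.Agent.J6H25.MOD

open Module Filter Topology
open Pool.Agent.H914 Pool.Agent.H914.VarClass Pool.Agent.H914.VarClass.Obj
  Pool.Agent.H914.WeilCohomology Pool.Agent.W492.BB Pool.Agent.W550.Corr
open Pool.Agent.Y133.Half hiding comp_lift lift_eta rho
open Pool.Agent.N765.IX
open Pool.Agent.N132.IX hiding Stab Lim Inf RLim cyc ncyc stab_cyc stab_ncyc ncyc_le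

variable {k : Type u} [Field k] {𝒱 : VarClass k} {ops : CycleOps 𝒱}
  {W : WeilCohomology.{u, v} ops} {X Y Z P Q V : 𝒱.Obj} {C : CycleTheory.{u, v, w} W}
  (M : CorrModule.{u, v, w, t} C)

/-- **The index law for modules.** -/
theorem index_law (X : 𝒱.Obj)
    (hD : ∀ (n : ℕ) (x : C.A (pw X n)), CycleTheory.NumTriv x → C.cl _ x = 0) :
    ∃ i : ℕ∞, Tendsto (fun n => (dimM M (pw X n) : ℝ≥0∞) / (C.numRank (pw X n) : ℝ≥0∞)) atTop
      (𝓝 (i : ℝ≥0∞)) ∧ (i = 0 ↔ ∀ Y, AJ.Dominates C X Y → ∀ y : M.M Y, y = 0) := by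
  have hB := AJ.base_of hD
  have hr0 : ∀ n, (C.numRank (pw X n) : ℝ≥0∞) ≠ 0 := fun n => by
    rw [numRank_eq]
    exact_mod_cast (a_pos C _).ne'
  have hr1 : ∀ n, (C.numRank (pw X n) : ℝ≥0∞) ≠ ⊤ := fun n => ENNReal.natCast_ne_top _
  by_cases hfin : ∀ n, Module.Finite W.K (M.M (pw X n))
  · have hft : ∀ n, Module.Finite W.K ((fun _ => ⊤ : ∀ n, Submodule W.K (M.M (pw X n))) n) :=
      fun n => by
        have := hfin n
        exact Module.Finite.of_surjective (Submodule.topEquiv.symm.toLinearMap)
          Submodule.topEquiv.symm.surjective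
    have hrat : ∀ n, (dimM M (pw X n) : ℝ≥0∞) / (C.numRank (pw X n) : ℝ≥0∞) =
        ENNReal.ofReal ((finrank W.K (⊤ : Submodule W.K (M.M (pw X n))) : ℝ) /
          C.S.a (pw X n)) := by
      intro n
      have := hfin n
      have hp : (0 : ℝ) < C.S.a (pw X n) := by exact_mod_cast hB.pos n
      rw [dimM_eq, numRank_eq, ENat.toENNReal_coe, ENNReal.ofReal_div_of_pos hp,
        ENNReal.ofReal_natCast, ENNReal.ofReal_natCast, finrank_top]
    have hlaw : (∃ i : ℕ, Lim M X (fun _ => ⊤) i ∧
        (i = 0 → ∀ n, (fun _ => ⊤ : ∀ n, Submodule W.K (M.M (pw X n))) n = ⊥)) ∨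
          Inf M X (fun _ => ⊤) := by
      by_cases hf : NoFixG (M := M) (X := X) (fun _ => ⊤)
      · exact lawG hB (stab_top M) hft hf
      · right
        rw [NoFixG] at hf
        push Not at hf
        obtain ⟨m, Γ, y, -, hΓ, hΓy, hy⟩ := hf
        intro N
        filter_upwards [phantom_inf M hfin hy hΓ hΓy N] with n hn
        rw [finrank_top, ← numRank_eq]
        exact hn
    rcases hlaw with ⟨i, hi, hi0⟩ | h
    · refine ⟨i, ?_, ?_⟩
      · have h2 : Tendsto (fun n => ENNReal.ofReal ((finrank W.K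
            (⊤ : Submodule W.K (M.M (pw X n))) : ℝ) / C.S.a (pw X n))) atTop
              (𝓝 (ENNReal.ofReal i)) :=
          (ENNReal.continuous_ofReal.tendsto _).comp hi
        rw [ENNReal.ofReal_natCast] at h2
        rw [ENat.toENNReal_coe]
        exact h2.congr fun n => (hrat n).symm
      · rw [← all_iff M]
        constructor
        · intro h n y
          have h2 : (⊤ : Submodule W.K (M.M (pw X n))) = ⊥ := hi0 (by exact_mod_cast h) n
          have h3 : y ∈ (⊤ : Submodule W.K (M.M (pw X n))) := Submodule.mem_top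
          rw [h2, Submodule.mem_bot] at h3
          exact h3
        · intro h
          have h3 : Tendsto (fun n => (finrank W.K (⊤ : Submodule W.K (M.M (pw X n))) : ℝ) /
              C.S.a (pw X n)) atTop (𝓝 (0 : ℝ)) := by
            refine tendsto_const_nhds.congr fun n => ?_
            have h5 : (⊤ : Submodule W.K (M.M (pw X n))) = ⊥ := by
              rw [eq_bot_iff]
              exact fun y _ => (Submodule.mem_bot _).2 (h n y)
            rw [h5, finrank_bot, Nat.cast_zero, zero_div]
          have h4 : (i : ℝ) = 0 := tendsto_nhds_unique hi h3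
          have h5 : i = 0 := by exact_mod_cast h4
          rw [h5]
          rfl
    · refine ⟨⊤, ?_, ?_⟩
      · rw [ENat.toENNReal_top]
        apply ENNReal.tendsto_nhds_top
        intro N
        filter_upwards [h (N + 1)] with n hn
        have h2 : ((N + 1 : ℕ) : ℝ≥0∞) ≤
            (dimM M (pw X n) : ℝ≥0∞) / (C.numRank (pw X n) : ℝ≥0∞) := by
          rw [ENNReal.le_div_iff_mul_le (Or.inl (hr0 n)) (Or.inl (hr1 n))]
          have := hfin n
          rw [dimM_eq, ENat.toENNReal_coe, numRank_eq]
          rw [finrank_top] at hn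
          exact_mod_cast hn
        refine lt_of_lt_of_le ?_ h2
        exact_mod_cast Nat.lt_succ_self N
      · refine ⟨fun h0 => absurd h0 (by simp), fun h0 => ?_⟩
        exfalso
        have h2 := (all_iff (X := X) M).2 h0
        obtain ⟨n, hn⟩ := (h 1).exists
        have h5 : (⊤ : Submodule W.K (M.M (pw X n))) = ⊥ := by
          rw [eq_bot_iff]
          exact fun y _ => (Submodule.mem_bot _).2 (h2 n y)
        have h6 := hB.pos n
        have h7 : 1 * C.S.a (pw X n) ≤ finrank W.K (⊤ : Submodule W.K (M.M (pw X n))) := hn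
        rw [h5, finrank_bot] at h7
        omega
  · push Not at hfin
    obtain ⟨n₁, hn₁⟩ := hfin
    have hinf : ∀ n ≥ n₁, ¬ Module.Finite W.K (M.M (pw X n)) := by
      intro n hn
      induction n, hn using Nat.le_induction with
      | base => exact hn₁
      | succ n _ ih => exact fun h => ih (finite_pred M h)
    refine ⟨⊤, ?_, ?_⟩
    · rw [ENat.toENNReal_top]
      refine tendsto_const_nhds.congr' ?_
      filter_upwards [eventually_ge_atTop n₁] with n hn
      rw [dimM_top M (hinf n hn), ENat.toENNReal_top, ENNReal.top_div_of_ne_top (hr1 n)]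
    · refine ⟨fun h0 => absurd h0 (by simp), fun h0 => ?_⟩
      exfalso
      have h2 := (all_iff (X := X) M).2 h0
      apply hn₁
      have : Subsingleton (M.M (pw X n₁)) := ⟨fun a b => (h2 n₁ a).trans (h2 n₁ b).symm⟩
      infer_instance

end Pool.Agent.J6H25.MOD
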