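import Pool.Agent.J6H25.MOD.Amp
import Pool.Agent.J6H25.AJ.Phantom

/-!
# Elements of a module which are fixed by homologically trivial correspondences
-/

set_option autoImplicit false

open CategoryTheory AlgebraicGeometry
open scoped ENNReal

universe u v w t

namespace Pool.Agent.J6H25.MOD

open Module Filter Topology
open Pool.Agent.H914 Pool.Agent.H914.VarClass Pool.Agent.H914.VarClass.Obj
  Pool.Agent.H914.WeilCohomology Pool.Agent.W492.BB Pool.Agent.W550.Corr
open Pool.Agent.Y133.Half hiding comp_lift lift_eta rho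
open Pool.Agent.N765.IX
open Pool.Agent.N132.IX hiding Stab Lim Inf RLim cyc ncyc stab_cyc stab_ncyc ncyc_le

variable {k : Type u} [Field k] {𝒱 : VarClass k} {ops : CycleOps 𝒱}
  {W : WeilCohomology.{u, v} ops} {X Y Z P Q V R R' : 𝒱.Obj} {C : CycleTheory.{u, v, w} W}
  (M : CorrModule.{u, v, w, t} C)

theorem slot' (C : CycleTheory.{u, v, w} W) (T : C.A (Q.prod Q)) (e : C.A (P.prod P))
    (y : C.A P) :
    C.comp (io C Q y) (TH133.tens C.toTheoryData T e) = C.comp T (io C Q (C.act e y)) := by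
  have hio : ∀ y : C.A P, io C Q y = cw C (fst Q P) (C.pull (snd Q P) y) := fun _ => rfl
  rw [hio, hio]
  have h1 : cw C (fst Q P) (C.pull (snd Q P) y) =
      C.pull (u12 Q Q P) (dg C.toTheoryData Q) * C.pull (snd Q (Q.prod P) ≫ snd Q P) y := by
    have h2 := dg_comp C.toTheoryData (cw C (fst Q P) (C.pull (snd Q P) y))
    rw [comp_eq_extR C.toTheoryData, extR_cw, ← C.pull_comp, C.mul_comm] at h2
    exact h2.symm
  have h3 : C.comp (cw C (fst Q P) (C.pull (snd Q P) y)) (TH133.tens C.toTheoryData T e) =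
      C.extR (TH133.tens C.toTheoryData T e) Q (cw C (fst Q P) (C.pull (snd Q P) y)) :=
    comp_eq_extR C.toTheoryData _ _
  have h4 : C.comp T (cw C (fst Q P) (C.pull (snd Q P) (C.act e y))) =
      C.extR (cw C (fst Q P) (C.pull (snd Q P) (C.act e y))) Q T := comp_eq_extR C.toTheoryData _ _
  have h5 : C.extR T Q (dg C.toTheoryData Q) = T := by
    rw [← comp_eq_extR C.toTheoryData, dg_comp C.toTheoryData]
  rw [h3, h4, extR_cw, h1, Pool.Agent.N7.IX.extR_tens, h5, ← C.pull_comp, C.mul_comm]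
  rfl

lemma graph_comp' (f : P ⟶ Q) (S : C.A (Q.prod R)) :
    C.comp (C.graph f) S = C.pull (prodMap f (𝟙 R)) S := by
  rw [TheoryData.comp, TheoryData.graph, TheoryData.base_fst, ← TheoryData.proj_left,
    ← TheoryData.push_comp, map_one, mul_one, ← TheoryData.pull_comp]
  have e1 : prodMap (Obj.lift (𝟙 P) f) (𝟙 R) ≫ t13 P Q R = 𝟙 _ := by
    apply prod_ext <;> simp [t13]
  have e2 : prodMap (Obj.lift (𝟙 P) f) (𝟙 R) ≫ t23 P Q R = prodMap f (𝟙 R) := by
    apply prod_ext <;> simp [t23]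
  rw [e1, e2, TheoryData.push_id]

/-- conjugation by an isomorphism -/
lemma conj_comp (θ : R ≅ R') (S : C.A (R'.prod R')) :
    C.comp (C.pull (prodMap θ.hom θ.hom) S) (C.graph θ.hom) = C.comp (C.graph θ.hom) S := by
  rw [comp_graph', graph_comp']
  have e1 : prodMap θ.hom θ.hom = prodMap (𝟙 R) θ.hom ≫ prodMap θ.hom (𝟙 R') := by
    apply prod_ext <;> simp
  have e2 : prodMap (𝟙 R) θ.hom ≫ prodMap (𝟙 R) θ.inv = 𝟙 _ := by
    apply prod_ext <;> simp
  have e3 : prodMap (𝟙 R) θ.inv ≫ prodMap (𝟙 R) θ.hom = 𝟙 _ := by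
    apply prod_ext <;> simp
  rw [e1, TheoryData.pull_comp, push_pull_iso C.toTheoryData _ _ e2 e3]

/-- the rank of an operator -/
noncomputable def rk (R : 𝒱.Obj) (S : C.A (R.prod R)) : ℕ :=
  finrank W.K (LinearMap.range (M.act R R S))

lemma rk_conj (θ : R ≅ R') (S : C.A (R'.prod R')) :
    rk M R (C.pull (prodMap θ.hom θ.hom) S) = rk M R' S := by
  have h1 : ∀ y, isoM M θ (M.act R R (C.pull (prodMap θ.hom θ.hom) S) y) =
      M.act R' R' S (isoM M θ y) := by
    intro y
    change M.act _ _ (C.graph θ.hom) (M.act R R (C.pull (prodMap θ.hom θ.hom) S) y) =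
      M.act R' R' S (M.act _ _ (C.graph θ.hom) y)
    rw [← M.act_comp, ← M.act_comp, conj_comp]
  have h2 : LinearMap.range (M.act R' R' S) =
      (LinearMap.range (M.act R R (C.pull (prodMap θ.hom θ.hom) S))).map
        (isoM M θ).toLinearMap := by
    ext x
    simp only [Submodule.mem_map, LinearMap.mem_range]
    constructor
    · rintro ⟨y, rfl⟩
      obtain ⟨y, rfl⟩ := (isoM M θ).surjective y
      exact ⟨_, ⟨y, rfl⟩, h1 y⟩
    · rintro ⟨_, ⟨y, rfl⟩, rfl⟩
      exact ⟨isoM M θ y, (h1 y).symm⟩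
  rw [rk, rk, h2]
  exact (LinearEquiv.finrank_map_eq (isoM M θ) _).symm

/-- `Q × (P × V) ≅ P × (Q × V)` -/
noncomputable def sw3 (P Q V : 𝒱.Obj) : Q.prod (P.prod V) ⟶ P.prod (Q.prod V) :=
  Obj.lift (snd Q (P.prod V) ≫ fst P V)
    (Obj.lift (fst Q (P.prod V)) (snd Q (P.prod V) ≫ snd P V))

noncomputable def sw3I (P Q V : 𝒱.Obj) : Q.prod (P.prod V) ≅ P.prod (Q.prod V) where
  hom := sw3 P Q V
  inv := sw3 Q P V
  hom_inv_id := by
    apply prod_ext
    · simp [sw3, comp_lift]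
    · apply prod_ext <;> simp [sw3, comp_lift]
  inv_hom_id := by
    apply prod_ext
    · simp [sw3, comp_lift]
    · apply prod_ext <;> simp [sw3, comp_lift]

/-- `(P × Q) × V ≅ P × (Q × V)` -/
noncomputable def as3I (P Q V : 𝒱.Obj) : (P.prod Q).prod V ≅ P.prod (Q.prod V) where
  hom := Obj.lift (fst (P.prod Q) V ≫ fst P Q)
    (Obj.lift (fst (P.prod Q) V ≫ snd P Q) (snd (P.prod Q) V))
  inv := Obj.lift (Obj.lift (fst P (Q.prod V)) (snd P (Q.prod V) ≫ fst Q V))
    (snd P (Q.prod V) ≫ snd Q V)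
  hom_inv_id := by
    apply prod_ext
    · apply prod_ext <;> simp [comp_lift]
    · simp [comp_lift]
  inv_hom_id := by
    apply prod_ext
    · simp [comp_lift]
    · apply prod_ext <;> simp [comp_lift]

lemma tens_sw3 (A : C.A (P.prod P)) (B : C.A (Q.prod Q)) (S : C.A (V.prod V)) :
    C.pull (prodMap (sw3I P Q V).hom (sw3I P Q V).hom) (TH133.tens C.toTheoryData A
      (TH133.tens C.toTheoryData B S)) = TH133.tens C.toTheoryData B
        (TH133.tens C.toTheoryData A S) := by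
  rw [TH133.tens, TH133.tens, TH133.tens, TH133.tens, map_mul, map_mul, map_mul, map_mul,
    ← TheoryData.pull_comp, ← TheoryData.pull_comp, ← TheoryData.pull_comp,
    ← TheoryData.pull_comp, ← TheoryData.pull_comp, ← TheoryData.pull_comp,
    ← TheoryData.pull_comp]
  have e1 : prodMap (sw3I P Q V).hom (sw3I P Q V).hom ≫ prodMap (fst P (Q.prod V))
      (fst P (Q.prod V)) = prodMap (snd Q (P.prod V)) (snd Q (P.prod V)) ≫
        prodMap (fst P V) (fst P V) := by
    apply prod_ext <;> simp [sw3I, sw3, comp_lift]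
  have e2 : prodMap (sw3I P Q V).hom (sw3I P Q V).hom ≫ prodMap (snd P (Q.prod V))
      (snd P (Q.prod V)) ≫ prodMap (fst Q V) (fst Q V) =
        prodMap (fst Q (P.prod V)) (fst Q (P.prod V)) := by
    apply prod_ext <;> simp [sw3I, sw3, comp_lift]
  have e3 : prodMap (sw3I P Q V).hom (sw3I P Q V).hom ≫ prodMap (snd P (Q.prod V))
      (snd P (Q.prod V)) ≫ prodMap (snd Q V) (snd Q V) =
        prodMap (snd Q (P.prod V)) (snd Q (P.prod V)) ≫ prodMap (snd P V) (snd P V) := by
    apply prod_ext <;> simp [sw3I, sw3, comp_lift]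
  simp only [Category.assoc]
  rw [e1, e2, e3]
  generalize C.pull _ A = a
  generalize C.pull _ B = b
  generalize C.pull _ S = s
  rw [← mul_assoc, ← mul_assoc, C.mul_comm a b]

lemma tens_as3 (A : C.A (P.prod P)) (B : C.A (Q.prod Q)) (S : C.A (V.prod V)) :
    C.pull (prodMap (as3I P Q V).hom (as3I P Q V).hom) (TH133.tens C.toTheoryData A
      (TH133.tens C.toTheoryData B S)) = TH133.tens C.toTheoryData
        (TH133.tens C.toTheoryData A B) S := by
  rw [TH133.tens, TH133.tens, TH133.tens, TH133.tens, map_mul, map_mul, map_mul, map_mul,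
    ← TheoryData.pull_comp, ← TheoryData.pull_comp, ← TheoryData.pull_comp,
    ← TheoryData.pull_comp, ← TheoryData.pull_comp, ← TheoryData.pull_comp,
    ← TheoryData.pull_comp]
  have e1 : prodMap (as3I P Q V).hom (as3I P Q V).hom ≫ prodMap (fst P (Q.prod V))
      (fst P (Q.prod V)) = prodMap (fst (P.prod Q) V) (fst (P.prod Q) V) ≫
        prodMap (fst P Q) (fst P Q) := by
    apply prod_ext <;> simp [as3I, comp_lift]
  have e2 : prodMap (as3I P Q V).hom (as3I P Q V).hom ≫ prodMap (snd P (Q.prod V))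
      (snd P (Q.prod V)) ≫ prodMap (fst Q V) (fst Q V) =
        prodMap (fst (P.prod Q) V) (fst (P.prod Q) V) ≫ prodMap (snd P Q) (snd P Q) := by
    apply prod_ext <;> simp [as3I, comp_lift]
  have e3 : prodMap (as3I P Q V).hom (as3I P Q V).hom ≫ prodMap (snd P (Q.prod V))
      (snd P (Q.prod V)) ≫ prodMap (snd Q V) (snd Q V) =
        prodMap (snd (P.prod Q) V) (snd (P.prod Q) V) := by
    apply prod_ext <;> simp [as3I, comp_lift]
  simp only [Category.assoc]
  rw [e1, e2, e3, mul_assoc]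

lemma act_tens_amp (y : M.M P) (E : C.A (P.prod P)) (S : C.A (R.prod R)) (x : C.A R) :
    M.act _ _ (TH133.tens C.toTheoryData E S) (ampM M y R x) =
      ampM M (M.act _ _ E y) R (C.act S x) := by
  change M.act _ _ (TH133.tens C.toTheoryData E S) (M.act _ _ (io C P x) y) =
    M.act _ _ (io C P (C.act S x)) (M.act _ _ E y)
  rw [← M.act_comp, slot', M.act_comp]

/-- One slot. -/
theorem slotM {y : M.M P} (hy : y ≠ 0) {Γ : C.A (P.prod P)} (hΓy : M.act _ _ Γ y = y)
    {S : C.A (R.prod R)} (hS : C.cl _ S = C.cl _ (dg C.toTheoryData R))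
    [hfin : Module.Finite W.K (M.M (P.prod R))] :
    C.numRank R + rk M (P.prod R) (TH133.tens C.toTheoryData (dg C.toTheoryData P - Γ) S) ≤
      rk M (P.prod R) (TH133.tens C.toTheoryData (dg C.toTheoryData P) S) := by
  set D := dg C.toTheoryData P with hD
  let Λ : C.A R →ₗ[W.K] M.M (P.prod R) := ampM M y R ∘ₗ actB C.toTheoryData S
  have hΛ : ∀ x, Λ x = ampM M y R (C.act S x) := fun x => rfl
  have h1 : LinearMap.ker Λ ≤ C.num R := by
    intro x hx w
    rw [LinearMap.mem_ker, hΛ] at hx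
    have h2 : C.act S x ∈ C.num R := ampM_ker M hy R hx
    have h3 := h2 w
    rw [map_mul, CycleTheory.cl_act, C.rho_apply S, hS, ← C.rho_apply, C.rho_dg] at h3
    rw [map_mul]
    exact h3
  let φ : M.M (P.prod R) →ₗ[W.K] M.M (P.prod R) :=
    M.act _ _ (TH133.tens C.toTheoryData (D - Γ) (dg C.toTheoryData R))
  have hmap : (LinearMap.range (M.act (P.prod R) (P.prod R)
      (TH133.tens C.toTheoryData D S))).map φ = LinearMap.range (M.act (P.prod R) (P.prod R)
        (TH133.tens C.toTheoryData (D - Γ) S)) := by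
    rw [← LinearMap.range_comp]
    congr 1
    apply LinearMap.ext
    intro z
    change M.act _ _ _ (M.act _ _ _ z) = M.act _ _ _ z
    rw [← M.act_comp, TH133.tens_comp C.toTheoryData C.mul_comm, comp_dg, hD, dg_comp]
  have hΛR : LinearMap.range Λ ≤ LinearMap.range (M.act (P.prod R) (P.prod R)
      (TH133.tens C.toTheoryData D S)) := by
    rintro _ ⟨x, rfl⟩
    refine ⟨ampM M y R x, ?_⟩
    rw [act_tens_amp, hD, M.act_dg, hΛ]
  have hΛφ : LinearMap.range Λ ≤ LinearMap.ker φ := by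
    rintro _ ⟨x, rfl⟩
    rw [LinearMap.mem_ker, hΛ]
    change M.act _ _ _ (ampM M y R (C.act S x)) = 0
    have h5 : M.act _ _ (D - Γ) y = 0 := by
      rw [map_sub, LinearMap.sub_apply, hΓy, hD, M.act_dg, sub_self]
    rw [act_tens_amp, h5]
    exact map_zero (M.act _ _ (io C P _))
  have h5 := AJ.finrank_map_add φ (LinearMap.range (M.act (P.prod R) (P.prod R)
      (TH133.tens C.toTheoryData D S))) hΛR hΛφ
  rw [hmap] at h5
  have h6 : C.numRank R ≤ finrank W.K (LinearMap.range Λ) := by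
    have hfin' : Module.Finite W.K (C.A R ⧸ LinearMap.ker Λ) :=
      Module.Finite.equiv Λ.quotKerEquivRange.symm
    have h2 : finrank W.K (C.A R ⧸ C.num R) ≤ finrank W.K (C.A R ⧸ LinearMap.ker Λ) :=
      LinearMap.finrank_le_finrank_of_surjective (f := Submodule.factor h1)
        (Submodule.factor_surjective _)
    rw [Λ.quotKerEquivRange.finrank_eq] at h2
    exact h2
  exact (Nat.add_le_add_right h6 _).trans h5

/-- `P × (P × ⋯ × (P × Z))` -/
noncomputable def lV (P Z : 𝒱.Obj) : ℕ → 𝒱.Obj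
  | 0 => Z
  | k + 1 => P.prod (lV P Z k)

lemma numRank_iso (θ : R ≅ R') : C.numRank R = C.numRank R' := by
  rw [numRank_eq, numRank_eq, C.S.a_iso θ]

lemma rk_sw (T : C.A (Q.prod Q)) (V : 𝒱.Obj) :
    rk M (Q.prod (P.prod V)) (TH133.tens C.toTheoryData T (dg C.toTheoryData (P.prod V))) =
      rk M (P.prod (Q.prod V)) (TH133.tens C.toTheoryData (dg C.toTheoryData P)
        (TH133.tens C.toTheoryData T (dg C.toTheoryData V))) := by
  rw [← TH133.tens_dg, ← tens_sw3, rk_conj]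

/-- The count. -/
theorem claimM {y : M.M P} (hy : y ≠ 0) {Γ : C.A (P.prod P)} (hΓ : C.cl _ Γ = 0)
    (hΓy : M.act _ _ Γ y = y) (Z : 𝒱.Obj) (k : ℕ) :
    ∀ (Q : 𝒱.Obj) (T : C.A (Q.prod Q)), C.cl _ T = C.cl _ (dg C.toTheoryData Q) →
      Module.Finite W.K (M.M (Q.prod (lV P Z (k + 1)))) →
      (k + 1) * C.numRank (Q.prod (lV P Z k)) ≤ rk M (Q.prod (lV P Z (k + 1)))
        (TH133.tens C.toTheoryData T (dg C.toTheoryData (lV P Z (k + 1)))) := by
  have hclD : C.cl _ (dg C.toTheoryData P - Γ) = C.cl _ (dg C.toTheoryData P) := by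
    rw [map_sub, hΓ, sub_zero]
  induction k with
  | zero =>
    intro Q T hT hfin
    have hfin' : Module.Finite W.K (M.M (Q.prod (P.prod Z))) := hfin
    have hf : Module.Finite W.K (M.M (P.prod (Q.prod Z))) :=
      Module.Finite.equiv (isoM M (sw3I P Q Z))
    have h1 := slotM M hy hΓy (R := Q.prod Z)
      (S := TH133.tens C.toTheoryData T (dg C.toTheoryData Z)) (cl_tens C hT rfl)
    change (0 + 1) * C.numRank (Q.prod Z) ≤ rk M (Q.prod (P.prod Z))
      (TH133.tens C.toTheoryData T (dg C.toTheoryData (P.prod Z)))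
    rw [rk_sw]
    omega
  | succ k ih =>
    intro Q T hT hfin
    have hfin' : Module.Finite W.K (M.M (Q.prod (P.prod (lV P Z (k + 1))))) := hfin
    have hf : Module.Finite W.K (M.M (P.prod (Q.prod (lV P Z (k + 1))))) :=
      Module.Finite.equiv (isoM M (sw3I P Q _))
    have hf2 : Module.Finite W.K (M.M ((P.prod Q).prod (lV P Z (k + 1)))) :=
      Module.Finite.equiv (isoM M (as3I P Q _).symm)
    have h1 := slotM M hy hΓy (R := Q.prod (lV P Z (k + 1)))
      (S := TH133.tens C.toTheoryData T (dg C.toTheoryData (lV P Z (k + 1)))) (cl_tens C hT rfl)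
    have h3 := ih (P.prod Q) (TH133.tens C.toTheoryData (dg C.toTheoryData P - Γ) T)
      (cl_tens C hclD hT) hf2
    rw [← tens_as3, rk_conj] at h3
    have h5 : C.numRank ((P.prod Q).prod (lV P Z k)) = C.numRank (Q.prod (lV P Z (k + 1))) :=
      numRank_iso ((as3I P Q (lV P Z k)) ≪≫ (sw3I P Q (lV P Z k)).symm)
    rw [h5] at h3
    change (k + 1 + 1) * C.numRank (Q.prod (lV P Z (k + 1))) ≤
      rk M (Q.prod (P.prod (lV P Z (k + 1))))
        (TH133.tens C.toTheoryData T (dg C.toTheoryData (P.prod (lV P Z (k + 1)))))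
    rw [rk_sw]
    calc (k + 1 + 1) * C.numRank (Q.prod (lV P Z (k + 1))) =
        C.numRank (Q.prod (lV P Z (k + 1))) +
          (k + 1) * C.numRank (Q.prod (lV P Z (k + 1))) := by ring
      _ ≤ _ := (Nat.add_le_add_left h3 _).trans h1

/-- **Phantoms.** A nonzero element fixed by a homologically trivial correspondence. -/
theorem phantomM {y : M.M P} (hy : y ≠ 0) {Γ : C.A (P.prod P)} (hΓ : C.cl _ Γ = 0)
    (hΓy : M.act _ _ Γ y = y) (Z : 𝒱.Obj) (k : ℕ)
    (hfin : Module.Finite W.K (M.M (lV P Z (k + 2)))) :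
    (k + 1) * C.numRank (lV P Z (k + 1)) ≤ finrank W.K (M.M (lV P Z (k + 2))) := by
  have hfin' : Module.Finite W.K (M.M (P.prod (lV P Z (k + 1)))) := hfin
  exact (claimM M hy hΓ hΓy Z k P (dg C.toTheoryData P) rfl hfin').trans (Submodule.finrank_le _)

lemma lV_iso (X : 𝒱.Obj) (m n : ℕ) (k : ℕ) :
    Nonempty (lV (pw X m) (pw X n) k ≅ pw X (n + k * (m + 1))) := by
  induction k with
  | zero =>
    rw [Nat.zero_mul, Nat.add_zero]
    exact ⟨Iso.refl _⟩
  | succ k ih =>
    obtain ⟨θ⟩ := ih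
    have e : m + (n + k * (m + 1)) + 1 = n + (k + 1) * (m + 1) := by ring
    rw [← e]
    exact ⟨prodCongr (Iso.refl _) θ ≪≫ pwAdd X m _⟩

/-- Phantoms make the ratios tend to infinity. -/
theorem phantom_inf (hfin : ∀ n, Module.Finite W.K (M.M (pw X n)))
    {m : ℕ} {Γ : C.A ((pw X m).prod (pw X m))} {y : M.M (pw X m)} (hy : y ≠ 0)
    (hΓ : C.cl _ Γ = 0) (hΓy : M.act _ _ Γ y = y) (N : ℕ) :
    ∀ᶠ n in atTop, N * C.numRank (pw X n) ≤ finrank W.K (M.M (pw X n)) := by
  obtain ⟨B, hB⟩ := AJ.numRank_add_le C X m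
  set k := N * B with hk
  rw [eventually_atTop]
  refine ⟨m + (1 + (k + 1) * (m + 1)) + 1, fun n' hn' => ?_⟩
  obtain ⟨n, hn⟩ : ∃ n, n' = m + ((n + 1) + (k + 1) * (m + 1)) + 1 :=
    ⟨n' - (m + (1 + (k + 1) * (m + 1)) + 1), by omega⟩
  obtain ⟨θ⟩ := lV_iso X m (n + 1) (k + 1)
  obtain ⟨θ'⟩ := lV_iso X m (n + 1) (k + 2)
  have e : (n + 1) + (k + 2) * (m + 1) = n' := by rw [hn]; ring
  rw [e] at θ'
  have hf : Module.Finite W.K (M.M (lV (pw X m) (pw X (n + 1)) (k + 2))) := by
    have := hfin n'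
    exact Module.Finite.equiv (isoM M θ').symm
  have h4 := phantomM M hy hΓ hΓy (pw X (n + 1)) k hf
  rw [numRank_iso θ, (isoM M θ').finrank_eq] at h4
  have h5 := hB ((n + 1) + (k + 1) * (m + 1)) (by omega)
  have h6 : C.numRank (pw X n') ≤ B * C.numRank (pw X ((n + 1) + (k + 1) * (m + 1))) := by
    rw [hn]
    exact h5
  calc N * C.numRank (pw X n')
      ≤ N * (B * C.numRank (pw X ((n + 1) + (k + 1) * (m + 1)))) := Nat.mul_le_mul_left _ h6
    _ = k * C.numRank (pw X ((n + 1) + (k + 1) * (m + 1))) := by rw [hk]; ring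
    _ ≤ (k + 1) * C.numRank (pw X ((n + 1) + (k + 1) * (m + 1))) :=
        Nat.mul_le_mul_right _ (Nat.le_succ _)
    _ ≤ _ := h4

end Pool.Agent.J6H25.MOD
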