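import Pool.Agent.J6H25.MOD.Amp
import Pool.Agent.J6H25.AJ.Phantom

/-!
# The classes of an ideal on the products with a fixed motive
-/

set_option autoImplicit false

open CategoryTheory AlgebraicGeometry
open scoped ENNReal

universe u v w t

namespace Pool.Agent.J6H25.MOD

open Module Filter Topology
open Pool.Agent.H914 Pool.Agent.H914.VarClass Pool.Agent.H914.VarClass.Obj
  Pool.Agent.H914.WeilCohomology Pool.Agent.W492.BB Pool.Agent.W550.Corr
open Pool.Agent.Y133.Half hiding comp_lift lift_eta rho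
open Pool.Agent.N765.IX
open Pool.Agent.N132.IX hiding Stab Lim Inf RLim cyc ncyc stab_cyc stab_ncyc ncyc_le
open Pool.Agent.J6H25.AJ (TensorIdeal)

variable {k : Type u} [Field k] {𝒱 : VarClass k} {ops : CycleOps 𝒱}
  {W : WeilCohomology.{u, v} ops} {X Y Z P Q V : 𝒱.Obj} {C : CycleTheory.{u, v, w} W}

/-- The classes in `J(Y × Z)` fixed by the correspondence `e` on `Y`. -/
noncomputable def tw (J : TensorIdeal C) (e : C.A (Y.prod Y)) (Z : 𝒱.Obj) :
    Submodule W.K (C.A (Y.prod Z)) where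
  carrier := {x | x ∈ J.J (Y.prod Z) ∧ C.comp e x = x}
  add_mem' := by
    rintro a b ⟨ha, ha'⟩ ⟨hb, hb'⟩
    exact ⟨add_mem ha hb, by rw [comp_add, ha', hb']⟩
  zero_mem' := ⟨zero_mem _, comp_zero _ _⟩
  smul_mem' := by
    rintro c a ⟨ha, ha'⟩
    refine ⟨Submodule.smul_mem _ _ ha, ?_⟩
    have h : C.comp e (c • a) = c • C.comp e a := by
      rw [TheoryData.comp, TheoryData.comp, map_smul, smul_mul_assoc, map_smul]
    rw [h, ha']

/-- The module of the classes in `J(Y × Z)` fixed by the correspondence `e` on `Y`. -/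
noncomputable def twist (J : TensorIdeal C) (e : C.A (Y.prod Y)) :
    CorrModule.{u, v, w, w} C where
  M Z := tw J e Z
  act P Q := LinearMap.mk₂ W.K
    (fun Γ x => ⟨C.comp x.1 Γ, AJ.comp_mem_left J x.2.1 Γ, by
      rw [← comp_assoc, x.2.2]⟩)
    (fun Γ Γ' x => Subtype.ext (comp_add _ _ _ _))
    (fun c Γ x => Subtype.ext (by
      change C.comp x.1 (c • Γ) = c • C.comp x.1 Γ
      rw [TheoryData.comp, TheoryData.comp, map_smul, smul_mul_assoc, map_smul]))
    (fun Γ x x' => Subtype.ext (add_comp _ _ _ _))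
    (fun c Γ x => Subtype.ext (by
      change C.comp (c • x.1) Γ = c • C.comp x.1 Γ
      exact map_smul (cR C Y Γ) c x.1))
  act_comp Γ Δ y := Subtype.ext (comp_assoc _ _ _ _).symm
  act_dg y := Subtype.ext (comp_dg _ _)

end Pool.Agent.J6H25.MOD
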