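import Pool.Agent.J6H25.MOD.SDefs
import Pool.Agent.J6H25.MOD.Twist
import Pool.Agent.J6H25.MOD.Index
import Pool.Agent.J6H25.AJ.SConv

/-!
# The index law for ideals on the products with a fixed motive, final form
-/

set_option autoImplicit false

open CategoryTheory AlgebraicGeometry
open scoped ENNReal

universe u v w

namespace Pool.Agent.J6H25.AJS

open Module Filter Topology
open Pool.Agent.H914 Pool.Agent.H914.VarClass Pool.Agent.H914.VarClass.Obj Pool.Agent.W492.BB
  Pool.Agent.Y133.Half Pool.Agent.N132 Pool.Agent.N132.IXS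

variable {k : Type u} [Field k] {𝒱 : VarClass k} {ops : CycleOps 𝒱}
  {W : WeilCohomology.{u, v} ops} {C : CycleTheory.{u, v, w} W} {X Y Z : 𝒱.Obj}
  (J : Family C.toChowTheory) (hJ : J.IsTensorIdeal) (e : C.A (Y.prod Y))

/-- The module over the correspondences attached to `J` and `e`. -/
noncomputable def tmod : MOD.CorrModule.{u, v, w, w} (conv C) := MOD.twist (convJ J hJ) e

lemma part_eq : J.part e Z = MOD.tw (convJ J hJ) (C := conv C) (Y := Y) e Z := by
  refine le_antisymm (Submodule.span_le.2 fun x hx => hx) fun x hx => ?_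
  exact Submodule.subset_span hx

lemma partDim_eq (Z : 𝒱.Obj) : J.partDim e Z = MOD.dimM (tmod J hJ e) Z := by
  rw [Family.partDim, part_eq J hJ e]
  rfl

lemma partVanishes_iff (Z : 𝒱.Obj) :
    J.PartVanishes e Z ↔ ∀ y : (tmod J hJ e).M Z, y = 0 :=
  ⟨fun h y => Subtype.ext (h y.1 y.2.1 y.2.2),
    fun h x hx hx' => congrArg Subtype.val (h ⟨x, hx, hx'⟩)⟩

lemma partBelow_iff : J.PartVanishesBelow e X ↔
    ∀ Z, AJ.Dominates (conv C) X Z → ∀ y : (tmod J hJ e).M Z, y = 0 :=
  ⟨fun h Z ⟨n, f, a, ha⟩ => (partVanishes_iff J hJ e Z).1 (h Z n f a ha),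
    fun h Z n f a ha => (partVanishes_iff J hJ e Z).2 (h Z ⟨n, f, a, ha⟩)⟩

/-- **The index law for ideals on the products with a motive.** -/
theorem final_part (C : CycleTheory.{u, v, w} W) (J : Family C.toChowTheory)
    (hJ : J.IsTensorIdeal) {Y : 𝒱.Obj} (e : C.A (Y.prod Y)) :
    (∀ P Z, J.PartVanishes e P ∨ C.numRank Z ≤ J.partDim e (P.prod Z)) ∧
    ∀ X, (J.PartVanishesBelow e X ∨ J.PartIsLarge e X) ∧
      (HomEqNum C X → J.PartIndexLaw e X) := by
  refine ⟨fun P Z => ?_, fun X => ⟨?_, fun hD => ?_⟩⟩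
  · rw [numRank_conv, partVanishes_iff J hJ e, partDim_eq J hJ e]
    refine or_iff_not_imp_left.2 fun h => ?_
    push Not at h
    obtain ⟨y, hy⟩ := h
    exact MOD.amp_le (tmod J hJ e) hy Z
  · rw [partBelow_iff J hJ e]
    rcases MOD.small_modules (tmod J hJ e) X with h | ⟨c, hc⟩
    · exact Or.inl h
    · refine Or.inr ⟨c, ?_⟩
      filter_upwards [hc] with n hn
      rw [numRank_conv, partDim_eq J hJ e]
      exact hn
  · obtain ⟨i, hi, hi0⟩ := MOD.index_law (tmod J hJ e) X
      (fun n x hx => hD n x ((numTriv_conv C).2 hx))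
    refine ⟨i, ?_, hi0.trans (partBelow_iff J hJ e).symm⟩
    refine hi.congr fun n => ?_
    rw [Family.partRatio, numRank_conv, partDim_eq J hJ e]

end Pool.Agent.J6H25.AJS
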