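import Pool.Agent.J6H25.AJ.SDefs

/-!
# Tensor ideals on the products with a fixed motive: definitions used in the statement
-/

open CategoryTheory AlgebraicGeometry Module Filter Topology
open scoped ENNReal

universe u v w

namespace Pool.Agent.J6H25.AJS

open Pool.Agent.H914 Pool.Agent.H914.VarClass Pool.Agent.H914.VarClass.Obj Pool.Agent.W492.BB
  Pool.Agent.Y133.Half Pool.Agent.N132.IXS

variable {k : Type u} [Field k] {𝒱 : VarClass k} {K : Type v} [Field K]

namespace Family

variable {C : ChowTheory.{u, v, w} 𝒱 K} (J : Family C) {Y : 𝒱.Obj} (e : C.A (Y.prod Y))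

/-- The space `J_e(Z)` of the classes `x` in `J(Y × Z)` with `e ∘ x = x`, for a correspondence `e` from
`Y` to itself. If `e` is idempotent it is the part of `J` on the motives `T ⊗ h(Z)` (in all Tate
twists), where `T` is the dual of the motive `(Y, e)`. -/
noncomputable def part (Z : 𝒱.Obj) : Submodule K (C.A (Y.prod Z)) :=
  Submodule.span K {x | J.Mem x ∧ C.comp e x = x}

/-- The dimension of `J_e(Z)`, a natural number or infinity. -/
noncomputable def partDim (Z : 𝒱.Obj) : ℕ∞ := Cardinal.toENat (Module.rank K (J.part e Z))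

/-- The ratio of the dimension of `J_e(Z)` to the dimension of `A(Z)` modulo numerical
equivalence. -/
noncomputable def partRatio (Z : 𝒱.Obj) : ℝ≥0∞ := J.partDim e Z / C.numRank Z

/-- `J_e(Z) = 0`. -/
def PartVanishes (Z : 𝒱.Obj) : Prop :=
  ∀ x : C.A (Y.prod Z), J.Mem x → C.comp e x = x → x = 0

/-- `J_e(Z) = 0` for all `Z` dominated by a power of `X`, that is, all `Z` with a morphism `f` from a
power of `X` to `Z` and a class `a` with `f_* a = 1`. -/
def PartVanishesBelow (X : 𝒱.Obj) : Prop :=
  ∀ (Z : 𝒱.Obj) (n : ℕ) (f : pw X n ⟶ Z) (a : C.A (pw X n)), C.down f a = 1 → J.PartVanishes e Z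

/-- For some `c`, the dimension of `A(X^n)` modulo numerical equivalence is at most `c` times the
dimension of `J_e(X^n)`, for all large `n`. -/
def PartIsLarge (X : 𝒱.Obj) : Prop :=
  ∃ c : ℕ, ∀ᶠ n in atTop, C.numRank (pw X n) ≤ c * J.partDim e (pw X n)

/-- The ratios of the dimension of `J_e(X^n)` to the dimension of `A(X^n)` modulo numerical
equivalence tend to an integer or infinity `i`, and `i = 0` if and only if `J_e` vanishes on all
varieties dominated by powers of `X`. -/
def PartIndexLaw (X : 𝒱.Obj) : Prop :=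
  ∃ i : ℕ∞, Tendsto (fun n => J.partRatio e (pw X n)) atTop (𝓝 i) ∧
    (i = 0 ↔ J.PartVanishesBelow e X)

end Family

end Pool.Agent.J6H25.AJS
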